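import Pool.Agent.Q24.AE.Res

set_option autoImplicit false

/-!
# Resolutions over the dual numbers
-/

namespace Pool.Agent.Q24.AE

open Module

/-- the sums of the first terms -/
def psum (g : ℕ → ℕ) : ℕ → ℕ
  | 0 => g 0
  | n + 1 => psum g n + g (n + 1)

section dbl

variable {A : Type} [CommRing A]

theorem dual_smul {X : Type} [AddCommGroup X] [Module A X] [Module (DualNumber A) X]
    [IsScalarTower A (DualNumber A) X] (z : DualNumber A) (x : X) :
    z • x = z.fst • x + z.snd • ((DualNumber.eps : DualNumber A) • x) := by
  have e : z = algebraMap A (DualNumber A) z.fst + z.snd • (DualNumber.eps : DualNumber A) := by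
    ext <;> simp [TrivSqZeroExt.algebraMap_eq_inl]
  conv_lhs => rw [e]
  rw [add_smul, algebraMap_smul, smul_assoc]

theorem dualStep {X : Type} [AddCommGroup X] [Module A X] [Module (DualNumber A) X]
    [IsScalarTower A (DualNumber A) X] {m : ℕ} (π : (Fin m → A) →ₗ[A] X)
    (hπ : Function.Surjective π) :
    ∃ P : (Fin m → DualNumber A) →ₗ[DualNumber A] X, Function.Surjective P ∧
      Nonempty ((LinearMap.ker P) ≃ₗ[A] LinearMap.ker π × (Fin m → A)) := by
  classical
  let P : (Fin m → DualNumber A) →ₗ[DualNumber A] X :=
    Fintype.linearCombination (DualNumber A) (fun i => π (Pi.single i 1))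
  have hc : ∀ (a : A) (x : X), (DualNumber.eps : DualNumber A) • a • x =
      a • (DualNumber.eps : DualNumber A) • x := by
    intro a x
    rw [← algebraMap_smul (DualNumber A) a x,
      ← algebraMap_smul (DualNumber A) a ((DualNumber.eps : DualNumber A) • x), smul_smul,
      smul_smul, mul_comm]
  have hsum : ∀ p : Fin m → A, π p = ∑ i, p i • π (Pi.single i 1) := by
    intro p
    rw [← Finset.sum_congr rfl fun i _ => map_smul π (p i) (Pi.single i 1), ← map_sum]
    congr 1
    funext j
    simp [Finset.sum_apply, Pi.single_apply]
  have hP : ∀ z : Fin m → DualNumber A, P z = π (fun i => (z i).fst) +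
      (DualNumber.eps : DualNumber A) • π (fun i => (z i).snd) := by
    intro z
    have h1 : P z = ∑ i, z i • π (Pi.single i 1) := by
      rw [Fintype.linearCombination_apply]
    rw [h1, hsum (fun i => (z i).fst), hsum (fun i => (z i).snd), Finset.smul_sum,
      ← Finset.sum_add_distrib]
    refine Finset.sum_congr rfl fun i _ => ?_
    rw [dual_smul, hc]
  have hPs : Function.Surjective P := by
    intro x
    obtain ⟨p, hp⟩ := hπ x
    refine ⟨fun i => TrivSqZeroExt.inl (p i), ?_⟩
    rw [hP]
    have h1 : (fun i => (TrivSqZeroExt.inl (p i) : DualNumber A).fst) = p := by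
      funext i
      simp
    have h2 : (fun i => (TrivSqZeroExt.inl (p i) : DualNumber A).snd) = 0 := by
      funext i
      simp
    rw [h1, h2, map_zero, smul_zero, add_zero, hp]
  let t : (Fin m → A) →ₗ[A] X :=
    { toFun := fun q => -((DualNumber.eps : DualNumber A) • π q)
      map_add' := fun q q' => by
        rw [map_add, smul_add, neg_add]
      map_smul' := fun a q => by
        rw [map_smul, hc, RingHom.id_apply, smul_neg] }
  obtain ⟨h, hh⟩ := Module.projective_lifting_property π t hπ
  have hh' : ∀ q, π (h q) = -((DualNumber.eps : DualNumber A) • π q) :=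
    fun q => LinearMap.congr_fun hh q
  refine ⟨P, hPs, ⟨?_⟩⟩
  exact
    { toFun := fun z => (⟨(fun i => (z.1 i).fst) - h (fun i => (z.1 i).snd), by
          have hz := z.2
          rw [LinearMap.mem_ker, hP] at hz
          rw [LinearMap.mem_ker, map_sub, hh', sub_neg_eq_add, hz]⟩,
          fun i => (z.1 i).snd)
      map_add' := fun z z' => by
        refine Prod.ext ?_ ?_
        · apply Subtype.ext
          have e1 : (fun i => ((z.1 + z'.1) i).fst) = (fun i => (z.1 i).fst) +
              fun i => (z'.1 i).fst := by
            funext i
            simp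
          have e2 : (fun i => ((z.1 + z'.1) i).snd) = (fun i => (z.1 i).snd) +
              fun i => (z'.1 i).snd := by
            funext i
            simp
          simp only [Submodule.coe_add, Prod.fst_add]
          rw [e1, e2, map_add]
          abel
        · funext i
          simp
      map_smul' := fun a z => by
        refine Prod.ext ?_ ?_
        · apply Subtype.ext
          have e1 : (fun i => ((a • z.1) i).fst) = a • fun i => (z.1 i).fst := by
            funext i
            simp
          have e2 : (fun i => ((a • z.1) i).snd) = a • fun i => (z.1 i).snd := by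
            funext i
            simp
          simp only [Submodule.coe_smul_of_tower, Prod.smul_fst, RingHom.id_apply,
            SetLike.val_smul]
          rw [e1, e2, map_smul, smul_sub]
        · funext i
          simp
      invFun := fun w => ⟨fun i => TrivSqZeroExt.inl (w.1.1 i + h w.2 i) +
          TrivSqZeroExt.inr (w.2 i), by
        have e1 : (fun i => (TrivSqZeroExt.inl (w.1.1 i + h w.2 i) +
            TrivSqZeroExt.inr (w.2 i) : DualNumber A).fst) = w.1.1 + h w.2 := by
          funext i
          simp
        have e2 : (fun i => (TrivSqZeroExt.inl (w.1.1 i + h w.2 i) +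
            TrivSqZeroExt.inr (w.2 i) : DualNumber A).snd) = w.2 := by
          funext i
          simp
        have h1 : π w.1.1 = 0 := w.1.2
        rw [LinearMap.mem_ker, hP, e1, e2, map_add, hh', h1, zero_add, neg_add_cancel]⟩
      left_inv := fun z => by
        apply Subtype.ext
        funext i
        ext
        · simp
        · simp
      right_inv := fun w => by
        refine Prod.ext ?_ ?_
        · apply Subtype.ext
          have e1 : (fun i => (TrivSqZeroExt.inl (w.1.1 i + h w.2 i) +
              TrivSqZeroExt.inr (w.2 i) : DualNumber A).fst) = w.1.1 + h w.2 := by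
            funext i
            simp
          have e2 : (fun i => (TrivSqZeroExt.inl (w.1.1 i + h w.2 i) +
              TrivSqZeroExt.inr (w.2 i) : DualNumber A).snd) = w.2 := by
            funext i
            simp
          simp only
          rw [e1, e2]
          abel
        · funext i
          simp }

/-- **Doubling**: the ranks over the dual numbers. -/
theorem PR.dual : ∀ (N : ℕ) (g : ℕ → ℕ) (X : Type) [AddCommGroup X] [Module A X]
    [Module (DualNumber A) X] [IsScalarTower A (DualNumber A) X],
    PR A N g X → PR (DualNumber A) N (psum g) X := by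
  intro N
  induction N with
  | zero =>
    intro g X _ _ _ _ h
    obtain ⟨π, hπ⟩ := h
    obtain ⟨P, hP, _⟩ := dualStep π hπ
    exact ⟨P, hP⟩
  | succ N ih =>
    intro g X _ _ _ _ h
    obtain ⟨π, hπ, h⟩ := h
    obtain ⟨P, hP, ⟨e⟩⟩ := dualStep π hπ
    refine ⟨P, hP, ?_⟩
    have h1 := PR.congr e.symm (PR.prodFree (g 0) h)
    have h2 := ih _ _ h1
    refine h2.ranks ?_
    funext n
    induction n with
    | zero =>
      simp only [psum]
      simp only [if_true]
      omega
    | succ n ihn =>
      rw [psum, ihn]
      simp [psum]

/-- the coordinates -/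
noncomputable def dualE (A : Type) [CommRing A] (m : ℕ) :
    (Fin (m + m) → A) ≃ₗ[A] (Fin m → DualNumber A) :=
  (splitE A m m).trans
    { toFun := fun p i => TrivSqZeroExt.inl (p.1 i) + TrivSqZeroExt.inr (p.2 i)
      map_add' := fun p q => by
        funext i
        ext <;> simp
      map_smul' := fun a p => by
        funext i
        ext <;> simp
      invFun := fun z => (fun i => (z i).fst, fun i => (z i).snd)
      left_inv := fun p => by
        refine Prod.ext ?_ ?_
        · funext i
          simp
        · funext i
          simp
      right_inv := fun z => by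
        funext i
        ext <;> simp }

theorem PR.restrict : ∀ (N : ℕ) (g : ℕ → ℕ) (X : Type) [AddCommGroup X] [Module A X]
    [Module (DualNumber A) X] [IsScalarTower A (DualNumber A) X],
    PR (DualNumber A) N g X → PR A N (fun n => g n + g n) X := by
  intro N
  induction N with
  | zero =>
    intro g X _ _ _ _ h
    obtain ⟨π, hπ⟩ := h
    exact ⟨(π.restrictScalars A) ∘ₗ (dualE A (g 0)).toLinearMap,
      hπ.comp (dualE A (g 0)).surjective⟩
  | succ N ih =>
    intro g X _ _ _ _ h
    obtain ⟨π, hπ, h⟩ := h
    refine ⟨(π.restrictScalars A) ∘ₗ (dualE A (g 0)).toLinearMap,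
      hπ.comp (dualE A (g 0)).surjective, ?_⟩
    refine PR.congr ?_ (ih _ _ h)
    exact
      { toFun := fun x => ⟨(dualE A (g 0)).symm x.1, by
          have hx : π x.1 = 0 := x.2
          rw [LinearMap.mem_ker, LinearMap.comp_apply, LinearEquiv.coe_coe,
            LinearEquiv.apply_symm_apply, LinearMap.restrictScalars_apply, hx]⟩
        map_add' := fun x y => by
          apply Subtype.ext
          simp
        map_smul' := fun a x => by
          apply Subtype.ext
          simp
        invFun := fun y => ⟨dualE A (g 0) y.1, y.2⟩
        left_inv := fun x => by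
          apply Subtype.ext
          simp
        right_inv := fun y => by
          apply Subtype.ext
          simp }

end dbl

end Pool.Agent.Q24.AE
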