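import Pool.Agent.Q24.AE.Mod

set_option autoImplicit false

/-!
# The growth of the Betti numbers over the algebra of dimension fourteen
-/

namespace Pool.Agent.Q24.AE

open Module

/-- the submodule generated by the products with the maximal ideal -/
def mM (Ω : Type) [AddCommGroup Ω] [Module Rg Ω] : Submodule Rg Ω :=
  IsLocalRing.maximalIdeal Rg • (⊤ : Submodule Rg Ω)

/-- the parts of degree zero -/
def augs (β : ℕ) : (Fin β → Rg) →ₗ[ℚ] (Fin β → ℚ) where
  toFun x i := (x i).a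
  map_add' x y := rfl
  map_smul' c x := rfl

theorem augs_surj (β : ℕ) : Function.Surjective (augs β) :=
  fun v => ⟨fun i => ⟨v i, 0, 0, 0, 0, 0, 0, 0, 0, 0, 0, 0, 0, 0⟩, rfl⟩

theorem finrank_free (β : ℕ) : finrank ℚ (Fin β → Rg) = 14 * β := by
  rw [finrank_pi_fintype, Finset.sum_const, Rg.finrank_eq, Finset.card_univ, Fintype.card_fin,
    smul_eq_mul, mul_comm]

section gen

variable {Ω : Type} [AddCommGroup Ω] [Module Rg Ω] [Module ℚ Ω] [IsScalarTower ℚ Rg Ω]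

/-- the dimensions in a minimal cover -/
theorem cover_dims {β : ℕ} (π : (Fin β → Rg) →ₗ[Rg] Ω) (hπ : MinCover π) :
    finrank ℚ Ω = finrank ℚ (mM Ω) + β ∧ finrank ℚ Ω + finrank ℚ (LinearMap.ker π) = 14 * β := by
  let p : (Fin β → Rg) →ₗ[ℚ] Ω := π.restrictScalars ℚ
  have hp : Function.Surjective p := hπ.1
  have hfin : Module.Finite ℚ Ω := Module.Finite.of_surjective p hp
  obtain ⟨σ, hσ⟩ := p.exists_rightInverse_of_surjective (LinearMap.range_eq_top.2 hp)
  have hσ' : ∀ y, π (σ y) = y := fun y => LinearMap.congr_fun hσ y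
  let Q : Ω →ₗ[ℚ] (Fin β → ℚ) := augs β ∘ₗ σ
  have hQ : ∀ x, Q (π x) = augs β x := by
    intro x
    have h1 : π (σ (π x) - x) = 0 := by rw [map_sub, hσ', sub_self]
    have h2 := hπ.2 _ h1
    change augs β (σ (π x)) = augs β x
    rw [← sub_eq_zero, ← map_sub]
    funext i
    exact (Rg.mem_max _).1 (h2 i)
  have hQs : Function.Surjective Q := by
    intro v
    obtain ⟨x, hx⟩ := augs_surj β v
    exact ⟨π x, by rw [hQ, hx]⟩
  have hker : LinearMap.ker Q = (mM Ω).restrictScalars ℚ := by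
    apply le_antisymm
    · intro y hy
      obtain ⟨x, rfl⟩ := hπ.1 y
      rw [LinearMap.mem_ker, hQ] at hy
      exact mem_smul_top π x (fun i => (Rg.mem_max _).2 (congrFun hy i))
    · intro y hy
      have hy' : y ∈ mM Ω := hy
      refine Submodule.smul_induction_on hy' ?_ ?_
      · intro r hr n _
        obtain ⟨x, rfl⟩ := hπ.1 n
        rw [LinearMap.mem_ker, ← map_smul, hQ]
        funext i
        have : r.a = 0 := (Rg.mem_max _).1 hr
        change (r * x i).a = 0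
        simp [this]
      · intro x y hx hy
        exact Submodule.add_mem _ hx hy
  have h1 := LinearMap.finrank_range_add_finrank_ker Q
  rw [LinearMap.range_eq_top.2 hQs, finrank_top, finrank_fin_fun, hker] at h1
  have h2 := LinearMap.finrank_range_add_finrank_ker p
  rw [LinearMap.range_eq_top.2 hp, finrank_top, finrank_free] at h2
  have h3 : finrank ℚ ((mM Ω).restrictScalars ℚ) = finrank ℚ (mM Ω) := rfl
  have h4 : finrank ℚ (LinearMap.ker p) = finrank ℚ (LinearMap.ker π) := rfl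
  constructor
  · omega
  · omega

/-- some coordinates -/
def top7 (β : ℕ) : (Fin β → Rg) →ₗ[ℚ] (Fin β → Fin 7 → ℚ) where
  toFun x i := ![(x i).X1, (x i).X2, (x i).X3, (x i).X4, (x i).Y, (x i).Z, (x i).s]
  map_add' x y := by
    funext i j
    fin_cases j <;> simp
  map_smul' c x := by
    funext i j
    fin_cases j <;> simp

theorem finrank_mker {β : ℕ} (π : (Fin β → Rg) →ₗ[Rg] Ω) (hπ : MinCover π) :
    finrank ℚ (mM (LinearMap.ker π)) ≤ 7 * β := by
  have hlow : ∀ z : LinearMap.ker π, z ∈ mM (LinearMap.ker π) → ∀ i, low (z.1 i) := by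
    intro z hz
    refine Submodule.smul_induction_on hz ?_ ?_
    · intro r hr n _ i
      exact low.mul ((Rg.mem_max r).1 hr) ((Rg.mem_max _).1 (hπ.2 n.1 n.2 i))
    · intro x y hx hy i
      exact (hx i).add (hy i)
  let f : mM (LinearMap.ker π) →ₗ[ℚ] (Fin β → Fin 7 → ℚ) := top7 β ∘ₗ
    ((LinearMap.ker π).subtype.restrictScalars ℚ) ∘ₗ
      ((mM (LinearMap.ker π)).subtype.restrictScalars ℚ)
  have hf : Function.Injective f := by
    intro z z' hz
    apply Subtype.ext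
    apply Subtype.ext
    funext i
    obtain ⟨h1, h2, h3, h4, h5, h6, h7⟩ := hlow z.1 z.2 i
    obtain ⟨h1', h2', h3', h4', h5', h6', h7'⟩ := hlow z'.1 z'.2 i
    have e0 : (z.1.1 i).X1 = (z'.1.1 i).X1 := congrFun (congrFun hz i) 0
    have e1 : (z.1.1 i).X2 = (z'.1.1 i).X2 := congrFun (congrFun hz i) 1
    have e2 : (z.1.1 i).X3 = (z'.1.1 i).X3 := congrFun (congrFun hz i) 2
    have e3 : (z.1.1 i).X4 = (z'.1.1 i).X4 := congrFun (congrFun hz i) 3
    have e4 : (z.1.1 i).Y = (z'.1.1 i).Y := congrFun (congrFun hz i) 4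
    have e5 : (z.1.1 i).Z = (z'.1.1 i).Z := congrFun (congrFun hz i) 5
    have e6 : (z.1.1 i).s = (z'.1.1 i).s := congrFun (congrFun hz i) 6
    ext <;> linarith
  have := LinearMap.finrank_le_finrank_of_injective hf
  rw [finrank_pi_fintype, Finset.sum_const, finrank_fin_fun, Finset.card_univ, Fintype.card_fin,
    smul_eq_mul, mul_comm] at this
  exact this

/-- **The growth.** -/
theorem grow {β β' : ℕ} (π : (Fin β → Rg) →ₗ[Rg] Ω) (hπ : MinCover π)
    (h : finrank ℚ (mM Ω) ≤ 4 * β) (π' : (Fin β' → Rg) →ₗ[Rg] LinearMap.ker π)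
    (hπ' : MinCover π') : finrank ℚ (mM (LinearMap.ker π)) ≤ 4 * β' ∧ 2 * β ≤ β' := by
  obtain ⟨h1, h2⟩ := cover_dims π hπ
  obtain ⟨h3, _⟩ := cover_dims π' hπ'
  have h4 := finrank_mker π hπ
  constructor
  · omega
  · omega

end gen

instance : IsNoetherianRing Rg := IsNoetherianRing.of_finite ℚ Rg

theorem growth : ∀ (N : ℕ) (g : ℕ → ℕ) (a β : ℕ) (Ω K : Type) [AddCommGroup Ω] [Module Rg Ω]
    [Module ℚ Ω] [IsScalarTower ℚ Rg Ω] [AddCommGroup K] [Module Rg K]
    (π : (Fin β → Rg) →ₗ[Rg] Ω), MinCover π → finrank ℚ (mM Ω) ≤ 4 * β →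
    (K ≃ₗ[Rg] Ω × (Fin a → Rg)) → PR Rg N g K → 2 ^ N * β ≤ g N := by
  intro N
  induction N with
  | zero =>
    intro g a β Ω K _ _ _ _ _ _ π hπ _ e h
    obtain ⟨ρ, hρ⟩ := h
    obtain ⟨a', h1, _⟩ := step π hπ e ρ hρ
    rw [pow_zero, one_mul, h1]
    omega
  | succ N ih =>
    intro g a β Ω K _ _ _ _ _ _ π hπ hm e h
    obtain ⟨ρ, hρ, h⟩ := h
    obtain ⟨a', h1, ⟨e'⟩⟩ := step π hπ e ρ hρ
    obtain ⟨β', π', hπ'⟩ := exists_minCover (A := Rg) (LinearMap.ker π)
    obtain ⟨h2, h3⟩ := grow π hπ hm π' hπ'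
    have h4 := ih (fun n => g (n + 1)) a' β' (LinearMap.ker π) (LinearMap.ker ρ) π' hπ' h2 e' h
    calc 2 ^ (N + 1) * β = 2 ^ N * (2 * β) := by ring
      _ ≤ 2 ^ N * β' := Nat.mul_le_mul_left _ h3
      _ ≤ g (N + 1) := h4

theorem growLL (N : ℕ) (g : ℕ → ℕ) (a : ℕ) (K : Type) [AddCommGroup K] [Module Rg K]
    (e : K ≃ₗ[Rg] LL × (Fin a → Rg)) (h : PR Rg N g K) : 2 ^ N * 3 ≤ g N := by
  obtain ⟨β, π, hπ⟩ := exists_minCover (A := Rg) LL
  obtain ⟨h1, _⟩ := cover_dims π hπ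
  have h2 := finrank_LL
  have h3 : finrank ℚ (mM LL) ≤ 11 := finrank_mLL
  have h4 := growth N g a β LL K π hπ (by omega) e h
  calc 2 ^ N * 3 ≤ 2 ^ N * β := Nat.mul_le_mul_left _ (by omega)
    _ ≤ g N := h4

end Pool.Agent.Q24.AE
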