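import Pool.Agent.Q24.AE.Dbl

set_option autoImplicit false

/-!
# Frobenius algebras and linkage over iterated dual numbers
-/

namespace Pool.Agent.Q24.AE

open Module

/-- a nondegenerate functional -/
def Nondeg {B : Type} [CommRing B] [Algebra ℚ B] (τ : B →ₗ[ℚ] ℚ) : Prop :=
  ∀ x : B, (∀ y, τ (x * y) = 0) → x = 0

section frob

variable {B : Type} [CommRing B] [Algebra ℚ B] [Module.Finite ℚ B] {τ : B →ₗ[ℚ] ℚ}

theorem Nondeg.repr (h : Nondeg τ) (f : B →ₗ[ℚ] ℚ) : ∃ z : B, ∀ x, f x = τ (z * x) := by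
  let Φ : B →ₗ[ℚ] (B →ₗ[ℚ] ℚ) :=
    { toFun := fun z => τ ∘ₗ LinearMap.mulLeft ℚ z
      map_add' := fun z z' => by
        ext x
        simp [add_mul]
      map_smul' := fun c z => by
        ext x
        simp }
  have hi : Function.Injective Φ := by
    rw [← LinearMap.ker_eq_bot, LinearMap.ker_eq_bot']
    intro z hz
    exact h z (fun y => LinearMap.congr_fun hz y)
  have hs : Function.Surjective Φ :=
    (LinearMap.injective_iff_surjective_of_finrank_eq_finrank
      (Subspace.dual_finrank_eq (K := ℚ) (V := B)).symm).1 hi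
  obtain ⟨z, hz⟩ := hs f
  exact ⟨z, fun x => by rw [← hz]; rfl⟩

theorem Nondeg.baer (h : Nondeg τ) : Module.Injective B B := by
  apply Module.Baer.injective
  intro I g
  let f₀ : (I.restrictScalars ℚ) →ₗ[ℚ] ℚ := τ ∘ₗ (g.restrictScalars ℚ)
  obtain ⟨f, hf⟩ := LinearMap.exists_extend f₀
  obtain ⟨z, hz⟩ := h.repr f
  refine ⟨LinearMap.toSpanSingleton B B z, fun x hx => ?_⟩
  rw [LinearMap.toSpanSingleton_apply, smul_eq_mul, ← sub_eq_zero]
  apply h
  intro b
  have h1 : f (x * b) = τ (g ⟨x * b, I.mul_mem_right b hx⟩) := by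
    have := LinearMap.congr_fun hf ⟨x * b, I.mul_mem_right b hx⟩
    exact this
  have h2 : g ⟨x * b, I.mul_mem_right b hx⟩ = b * g ⟨x, hx⟩ := by
    have h3 := map_smul g b ⟨x, hx⟩
    rw [smul_eq_mul] at h3
    rw [← h3]
    congr 1
    apply Subtype.ext
    simp [mul_comm]
  rw [hz, h2] at h1
  have e : (x * z - g ⟨x, hx⟩) * b = z * (x * b) - b * g ⟨x, hx⟩ := by ring
  rw [e, map_sub, h1, sub_self]

/-- the double annihilator -/
theorem Nondeg.double (h : Nondeg τ) (I : Ideal B) (y : B)
    (hy : ∀ z : B, (∀ i ∈ I, z * i = 0) → y * z = 0) : y ∈ I := by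
  by_contra hyI
  have hyI' : y ∉ I.restrictScalars ℚ := hyI
  obtain ⟨f, hfy, hf⟩ := Submodule.exists_dual_map_eq_bot_of_notMem hyI' inferInstance
  obtain ⟨z, hz⟩ := h.repr f
  have h1 : ∀ i ∈ I, f i = 0 := by
    intro i hi
    have h2 : f i ∈ (I.restrictScalars ℚ).map f := ⟨i, hi, rfl⟩
    rw [hf] at h2
    simpa using h2
  apply hfy
  rw [hz, mul_comm, hy z, map_zero]
  intro i hi
  apply h
  intro b
  rw [mul_assoc, ← hz]
  exact h1 _ (I.mul_mem_right b hi)

end frob

section dual

variable {B : Type} [CommRing B]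

instance : IsLocalHom (TrivSqZeroExt.fstHom ℤ B B).toRingHom :=
  ⟨fun _ h => TrivSqZeroExt.isUnit_iff_isUnit_fst.2 h⟩

instance [IsLocalRing B] : IsLocalRing (DualNumber B) :=
  RingHom.domain_isLocalRing (TrivSqZeroExt.fstHom ℤ B B).toRingHom

instance [Algebra ℚ B] [Module.Finite ℚ B] : Module.Finite ℚ (DualNumber B) :=
  inferInstanceAs (Module.Finite ℚ (B × B))

/-- the last coordinate -/
def sndL [Algebra ℚ B] : DualNumber B →ₗ[ℚ] B where
  toFun := TrivSqZeroExt.snd
  map_add' _ _ := rfl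
  map_smul' _ _ := rfl

theorem Nondeg.dual [Algebra ℚ B] {τ : B →ₗ[ℚ] ℚ} (h : Nondeg τ) : Nondeg (τ ∘ₗ sndL) := by
  intro x hx
  have h1 : ∀ c d : B, τ (x.fst * d + x.snd * c) = 0 := by
    intro c d
    have := hx (TrivSqZeroExt.inl c + TrivSqZeroExt.inr d)
    have e : sndL (x * (TrivSqZeroExt.inl c + TrivSqZeroExt.inr d)) = x.fst * d + x.snd * c := by
      simp [sndL]
    rw [LinearMap.comp_apply, e] at this
    exact this
  ext
  · rw [TrivSqZeroExt.fst_zero]
    apply h
    intro y
    have := h1 0 y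
    rwa [mul_zero, add_zero] at this
  · rw [TrivSqZeroExt.snd_zero]
    apply h
    intro y
    have := h1 y 0
    rwa [mul_zero, zero_add] at this

end dual

section ideals

variable {R : Type} [CommRing R]

theorem tower0 (A : Type) [CommRing A] : IsScalarTower A (DualNumber A) (DualNumber A) :=
  inferInstance

instance tower1 : IsScalarTower R (DualNumber (DualNumber R)) (DualNumber (DualNumber R)) :=
  ⟨fun a x y => by ext <;> simp [mul_add]⟩

instance tower2 :
    IsScalarTower (DualNumber R) (DualNumber (DualNumber R)) (DualNumber (DualNumber R)) :=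
  tower0 (DualNumber R)

/-- the ideal of the elements `b u + c v + d u v` with `(b, c)` in `W` -/
def idl (W : Submodule R (Fin 2 → R)) : Ideal (DualNumber (DualNumber R)) where
  carrier := {x | x.fst.fst = 0 ∧ ![x.fst.snd, x.snd.fst] ∈ W}
  add_mem' := by
    rintro x y ⟨h1, h2⟩ ⟨h3, h4⟩
    refine ⟨by simp [h1, h3], ?_⟩
    have e : ![(x + y).fst.snd, (x + y).snd.fst] = ![x.fst.snd, x.snd.fst] +
        ![y.fst.snd, y.snd.fst] := by simp
    rw [e]
    exact W.add_mem h2 h4
  zero_mem' := by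
    refine ⟨by simp, ?_⟩
    have e : ![(0 : DualNumber (DualNumber R)).fst.snd, (0 : DualNumber (DualNumber R)).snd.fst] =
        0 := by
      funext i
      fin_cases i <;> simp
    rw [e]
    exact W.zero_mem
  smul_mem' := by
    rintro c x ⟨h1, h2⟩
    refine ⟨by simp [h1], ?_⟩
    have e : ![(c • x).fst.snd, (c • x).snd.fst] = c.fst.fst • ![x.fst.snd, x.snd.fst] := by
      funext i
      fin_cases i <;> simp [h1]
    rw [e]
    exact W.smul_mem _ h2

theorem mem_idl (W : Submodule R (Fin 2 → R)) (x : DualNumber (DualNumber R)) :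
    x ∈ idl W ↔ x.fst.fst = 0 ∧ ![x.fst.snd, x.snd.fst] ∈ W := Iff.rfl

/-- the structure of the module -/
def idlE (W : Submodule R (Fin 2 → R)) : (idl W) ≃ₗ[R] W × (Fin 1 → R) where
  toFun x := (⟨![x.1.fst.snd, x.1.snd.fst], x.2.2⟩, fun _ => x.1.snd.snd)
  map_add' x y := by
    refine Prod.ext ?_ ?_
    · apply Subtype.ext
      simp
    · funext i
      simp
  map_smul' c x := by
    refine Prod.ext ?_ ?_
    · apply Subtype.ext
      simp
    · funext i
      simp
  invFun w := ⟨TrivSqZeroExt.inl (TrivSqZeroExt.inr (w.1.1 0)) +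
      TrivSqZeroExt.inr (TrivSqZeroExt.inl (w.1.1 1) + TrivSqZeroExt.inr (w.2 0)), by
    refine ⟨by simp, ?_⟩
    have e : ![(TrivSqZeroExt.inl (TrivSqZeroExt.inr (w.1.1 0)) +
        TrivSqZeroExt.inr (TrivSqZeroExt.inl (w.1.1 1) + TrivSqZeroExt.inr (w.2 0)) :
        DualNumber (DualNumber R)).fst.snd, (TrivSqZeroExt.inl (TrivSqZeroExt.inr (w.1.1 0)) +
        TrivSqZeroExt.inr (TrivSqZeroExt.inl (w.1.1 1) + TrivSqZeroExt.inr (w.2 0)) :
        DualNumber (DualNumber R)).snd.fst] = w.1.1 := by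
      funext i
      fin_cases i <;> simp
    rw [e]
    exact w.1.2⟩
  left_inv x := by
    apply Subtype.ext
    have h1 := x.2.1
    ext <;> simp [h1]
  right_inv w := by
    refine Prod.ext ?_ ?_
    · apply Subtype.ext
      funext i
      fin_cases i <;> simp
    · funext i
      rw [Subsingleton.elim i 0]
      simp

/-- the annihilator -/
theorem ann_idl (W L : Submodule R (Fin 2 → R))
    (hL : ∀ l, l ∈ L ↔ ∀ w ∈ W, l 0 * w 1 + l 1 * w 0 = 0) (x : DualNumber (DualNumber R)) :
    x ∈ idl L ↔ ∀ y ∈ idl W, x * y = 0 := by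
  rw [mem_idl]
  constructor
  · rintro ⟨h1, h2⟩ y ⟨h3, h4⟩
    have h5 := (hL _).1 h2 _ h4
    simp only [Matrix.cons_val_zero, Matrix.cons_val_one] at h5
    ext
    · simp [h1]
    · simp [h1, h3]
    · simp [h1, h3]
    · simp only [DualNumber.snd_mul, TrivSqZeroExt.snd_add, TrivSqZeroExt.snd_zero, h1, h3]
      linear_combination h5
  · intro h
    have h1 : x.fst.fst = 0 := by
      have := h (TrivSqZeroExt.inr (TrivSqZeroExt.inr 1)) ⟨by simp, by
        have e : ![(TrivSqZeroExt.inr (TrivSqZeroExt.inr 1) : DualNumber (DualNumber R)).fst.snd,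
            (TrivSqZeroExt.inr (TrivSqZeroExt.inr 1) : DualNumber (DualNumber R)).snd.fst] =
            0 := by
          funext i
          fin_cases i <;> simp
        rw [e]
        exact W.zero_mem⟩
      have h2 := congrArg (fun z : DualNumber (DualNumber R) => z.snd.snd) this
      simpa using h2
    refine ⟨h1, (hL _).2 ?_⟩
    intro w hw
    have := h (TrivSqZeroExt.inl (TrivSqZeroExt.inr (w 0)) +
      TrivSqZeroExt.inr (TrivSqZeroExt.inl (w 1))) ⟨by simp, by
        have e : ![(TrivSqZeroExt.inl (TrivSqZeroExt.inr (w 0)) +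
            TrivSqZeroExt.inr (TrivSqZeroExt.inl (w 1)) : DualNumber (DualNumber R)).fst.snd,
            (TrivSqZeroExt.inl (TrivSqZeroExt.inr (w 0)) +
            TrivSqZeroExt.inr (TrivSqZeroExt.inl (w 1)) : DualNumber (DualNumber R)).snd.fst] =
            w := by
          funext i
          fin_cases i <;> simp
        rw [e]
        exact hw⟩
    have h2 := congrArg (fun z : DualNumber (DualNumber R) => z.snd.snd) this
    simp only [DualNumber.snd_mul, TrivSqZeroExt.snd_add, TrivSqZeroExt.snd_zero,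
      TrivSqZeroExt.fst_add, TrivSqZeroExt.fst_inl, TrivSqZeroExt.fst_inr, TrivSqZeroExt.snd_inl,
      TrivSqZeroExt.snd_inr, TrivSqZeroExt.fst_zero] at h2
    simp only [Matrix.cons_val_zero, Matrix.cons_val_one]
    linear_combination h2

theorem idl_ne_top [Nontrivial R] (W : Submodule R (Fin 2 → R)) : idl W ≠ ⊤ := by
  intro h
  have h1 : (1 : DualNumber (DualNumber R)) ∈ idl W := by
    rw [h]
    exact Submodule.mem_top
  have h2 := h1.1
  simp at h2

end ideals

end Pool.Agent.Q24.AE
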