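import Pool.Agent.Q24.AE.Ring
import Pool.Agent.Q24.AE.Lin

set_option autoImplicit false

/-!
# The asymmetric module
-/

namespace Pool.Agent.Q24.AE

open Module

/-- `x1` -/
def g1 : Rg := ⟨0, 1, 0, 0, 0, 0, 0, 0, 0, 0, 0, 0, 0, 0⟩
/-- `x2` -/
def g2 : Rg := ⟨0, 0, 1, 0, 0, 0, 0, 0, 0, 0, 0, 0, 0, 0⟩
/-- `x3` -/
def g3 : Rg := ⟨0, 0, 0, 1, 0, 0, 0, 0, 0, 0, 0, 0, 0, 0⟩
/-- `x4` -/
def g4 : Rg := ⟨0, 0, 0, 0, 1, 0, 0, 0, 0, 0, 0, 0, 0, 0⟩

/-- the differentials -/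
def dd (t : ℚ) : (Fin 2 → Rg) →ₗ[Rg] (Fin 2 → Rg) where
  toFun p := ![g1 * p 0 + (t • g3) * p 1, g4 * p 0 + g2 * p 1]
  map_add' p q := by
    funext i
    fin_cases i
    · change g1 * (p 0 + q 0) + (t • g3) * (p 1 + q 1) =
        (g1 * p 0 + (t • g3) * p 1) + (g1 * q 0 + (t • g3) * q 1)
      ring
    · change g4 * (p 0 + q 0) + g2 * (p 1 + q 1) = (g4 * p 0 + g2 * p 1) + (g4 * q 0 + g2 * q 1)
      ring
  map_smul' c p := by
    funext i
    fin_cases i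
    · change g1 * (c * p 0) + (t • g3) * (c * p 1) = c * (g1 * p 0 + (t • g3) * p 1)
      ring
    · change g4 * (c * p 0) + g2 * (c * p 1) = c * (g4 * p 0 + g2 * p 1)
      ring

theorem dd_zero (t : ℚ) (p : Fin 2 → Rg) : dd t p 0 = g1 * p 0 + (t • g3) * p 1 := rfl

theorem dd_one (t : ℚ) (p : Fin 2 → Rg) : dd t p 1 = g4 * p 0 + g2 * p 1 := rfl

theorem dd_dd (t : ℚ) (p : Fin 2 → Rg) : dd t (dd (2 * t) p) = 0 := by
  funext i
  fin_cases i
  · change dd t (dd (2 * t) p) 0 = 0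
    rw [dd_zero, dd_zero, dd_one]
    ext <;> simp [g1, g2, g3, g4] <;> ring
  · change dd t (dd (2 * t) p) 1 = 0
    rw [dd_one, dd_zero, dd_one]
    ext <;> simp [g1, g2, g3, g4]

theorem dd_exact (t : ℚ) (h1 : t ≠ 1) (h2 : 2 * t - 1 ≠ 0) :
    LinearMap.ker (dd t) = LinearMap.range (dd (2 * t)) := by
  apply le_antisymm
  · intro x hx
    rw [LinearMap.mem_ker] at hx
    have e1 : g1 * x 0 + (t • g3) * x 1 = 0 := congrFun hx 0
    have e2 : g4 * x 0 + g2 * x 1 = 0 := congrFun hx 1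
    generalize hb : x 0 = b at e1 e2
    generalize hc : x 1 = c at e1 e2
    have a1 := congrArg Rg.x1 e1
    have a2 := congrArg Rg.X1 e1
    have a3 := congrArg Rg.X2 e1
    have a4 := congrArg Rg.X3 e1
    have a5 := congrArg Rg.X4 e1
    have a6 := congrArg Rg.Y e1
    have a7 := congrArg Rg.Z e1
    have a8 := congrArg Rg.s e1
    have b1 := congrArg Rg.x2 e2
    have b2 := congrArg Rg.X1 e2
    have b3 := congrArg Rg.X3 e2
    have b4 := congrArg Rg.X4 e2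
    have b5 := congrArg Rg.Y e2
    have b6 := congrArg Rg.Z e2
    have b7 := congrArg Rg.s e2
    simp [g1, g2, g3, g4] at a1 a2 a3 a4 a5 a6 a7 a8 b1 b2 b3 b4 b5 b6 b7
    obtain ⟨w, hw⟩ : ∃ w : ℚ, (2 * t - 1) * w = b.Z - c.Z :=
      ⟨(b.Z - c.Z) / (2 * t - 1), by field_simp⟩
    have hcz : c.z = 0 := by
      have h3 : (t - 1) * c.z = 0 := by linear_combination a7 - b6
      rcases mul_eq_zero.1 h3 with h4 | h4
      · exact absurd (sub_eq_zero.1 h4) h1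
      · exact h4
    rw [b3] at a3
    rw [b5] at a4
    rw [hcz] at a7 b6
    refine ⟨![⟨b.x1, 0, b.Y, b.X3 - 2 * t * c.Y, b.X4, b.X2 + 2 * b.X1, c.Z - w, b.s, 0, 0, 0, 0,
      0, 0⟩, ⟨c.x2, c.Y, 0, -c.X3 / 2, -b.Y - c.X4, c.X1 - b.X4, w, 0, c.s, 0, 0, 0, 0, 0⟩], ?_⟩
    funext i
    fin_cases i
    · change g1 * _ + ((2 * t) • g3) * _ = x 0
      rw [hb]
      ext <;> simp [g1, g2, g3, g4] <;> linarith
    · change g4 * _ + g2 * _ = x 1
      rw [hc]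
      ext <;> simp [g1, g2, g3, g4] <;> linarith
  · rintro _ ⟨p, rfl⟩
    exact dd_dd t p

/-- the module with bounded Betti numbers -/
theorem prW : ∀ N i : ℕ, PR Rg N (fun _ => 2) (LinearMap.range (dd (2 ^ (i + 1)))) := by
  intro N
  induction N with
  | zero =>
    intro i
    exact ⟨(dd (2 ^ (i + 1))).rangeRestrict, LinearMap.surjective_rangeRestrict _⟩
  | succ N ih =>
    intro i
    refine ⟨(dd (2 ^ (i + 1))).rangeRestrict, LinearMap.surjective_rangeRestrict _, ?_⟩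
    have h2 : (2 : ℚ) ≤ 2 ^ (i + 1) := by
      rw [pow_succ]
      have : (1 : ℚ) ≤ 2 ^ i := one_le_pow₀ (by norm_num)
      linarith
    rw [LinearMap.ker_rangeRestrict, dd_exact _ (by intro h; rw [h] at h2; norm_num at h2)
      (by intro h; linarith)]
    have e : (2 : ℚ) * 2 ^ (i + 1) = 2 ^ (i + 1 + 1) := by ring
    rw [e]
    exact ih (i + 1)

/-- the dual module -/
def LL : Submodule Rg (Fin 2 → Rg) where
  carrier := {l | ∀ w ∈ LinearMap.range (dd 2), l 0 * w 1 + l 1 * w 0 = 0}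
  add_mem' := by
    intro l l' h h' w hw
    have e : (l + l') 0 * w 1 + (l + l') 1 * w 0 =
      (l 0 * w 1 + l 1 * w 0) + (l' 0 * w 1 + l' 1 * w 0) := by
      rw [Pi.add_apply, Pi.add_apply]
      ring
    rw [e, h w hw, h' w hw, add_zero]
  zero_mem' := by
    intro w hw
    simp
  smul_mem' := by
    intro c l h w hw
    have e : (c • l) 0 * w 1 + (c • l) 1 * w 0 = c * (l 0 * w 1 + l 1 * w 0) := by
      rw [Pi.smul_apply, Pi.smul_apply, smul_eq_mul, smul_eq_mul]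
      ring
    rw [e, h w hw, mul_zero]

theorem mem_LL (l : Fin 2 → Rg) :
    l ∈ LL ↔ ∀ w ∈ LinearMap.range (dd 2), l 0 * w 1 + l 1 * w 0 = 0 := Iff.rfl

theorem mem_LL' (l : Fin 2 → Rg) :
    l ∈ LL ↔ g4 * l 0 + g1 * l 1 = 0 ∧ g2 * l 0 + ((2 : ℚ) • g3) * l 1 = 0 := by
  rw [mem_LL]
  constructor
  · intro h
    have h1 := h (dd 2 ![1, 0]) ⟨_, rfl⟩
    have h2 := h (dd 2 ![0, 1]) ⟨_, rfl⟩
    rw [dd_zero, dd_one] at h1 h2
    simp only [Matrix.cons_val_zero, Matrix.cons_val_one] at h1 h2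
    exact ⟨by linear_combination h1, by linear_combination h2⟩
  · rintro ⟨h1, h2⟩ _ ⟨p, rfl⟩
    rw [dd_zero, dd_one]
    linear_combination p 0 * h1 + p 1 * h2

/-- linear conditions which imply the membership -/
def cond : (Fin 2 → Rg) →ₗ[ℚ] (Fin 14 → ℚ) where
  toFun l := ![(l 0).a, (l 1).a, (l 0).x1, (l 0).x4, (l 0).y, (l 0).z, (l 1).x2, (l 1).x3,
    (l 1).y, (l 1).z, (l 0).x2 - (l 1).x4, (l 0).x3 - (l 1).x1, (l 0).X4 + (l 1).X1,
    (l 0).X2 + 2 * (l 1).X3]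
  map_add' p q := by
    funext i
    fin_cases i <;> simp <;> ring
  map_smul' c p := by
    funext i
    fin_cases i <;> simp <;> ring

theorem finrank_two : finrank ℚ (Fin 2 → Rg) = 28 := by
  rw [finrank_pi_fintype, Finset.sum_const, Rg.finrank_eq]
  rfl

theorem LL_facts (l : Fin 2 → Rg) (hl : l ∈ LL) : (l 0).a = 0 ∧ (l 1).a = 0 ∧ (l 0).x1 = 0 ∧
    (l 0).x4 = 0 ∧ (l 0).y = 0 ∧ (l 0).z = 0 ∧ (l 1).x2 = 0 ∧ (l 1).x3 = 0 ∧ (l 1).y = 0 ∧
    (l 1).z = 0 ∧ (l 1).x4 = (l 0).x2 ∧ (l 1).x1 = (l 0).x3 := by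
  obtain ⟨e1, e2⟩ := (mem_LL' l).1 hl
  generalize l 0 = b at *
  generalize l 1 = c at *
  have a0 := congrArg Rg.x4 e1
  have a1 := congrArg Rg.x1 e1
  have a2 := congrArg Rg.X1 e1
  have a3 := congrArg Rg.X2 e1
  have a4 := congrArg Rg.X3 e1
  have a5 := congrArg Rg.X4 e1
  have a6 := congrArg Rg.Y e1
  have a7 := congrArg Rg.Z e1
  have b2 := congrArg Rg.X1 e2
  have b3 := congrArg Rg.X3 e2
  have b5 := congrArg Rg.Y e2
  have b6 := congrArg Rg.Z e2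
  simp [g1, g2, g3, g4] at a0 a1 a2 a3 a4 a5 a6 a7 b2 b3 b5 b6
  refine ⟨?_, ?_, ?_, ?_, ?_, ?_, ?_, ?_, ?_, ?_, ?_, ?_⟩ <;> linarith

theorem cond_le : LinearMap.ker cond ≤ LL.restrictScalars ℚ := by
  intro l hl
  rw [LinearMap.mem_ker] at hl
  rw [Submodule.restrictScalars_mem, mem_LL']
  have h0 : (l 0).a = 0 := congrFun hl 0
  have h1 : (l 1).a = 0 := congrFun hl 1
  have h2 : (l 0).x1 = 0 := congrFun hl 2
  have h3 : (l 0).x4 = 0 := congrFun hl 3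
  have h4 : (l 0).y = 0 := congrFun hl 4
  have h5 : (l 0).z = 0 := congrFun hl 5
  have h6 : (l 1).x2 = 0 := congrFun hl 6
  have h7 : (l 1).x3 = 0 := congrFun hl 7
  have h8 : (l 1).y = 0 := congrFun hl 8
  have h9 : (l 1).z = 0 := congrFun hl 9
  have h10 : (l 0).x2 - (l 1).x4 = 0 := congrFun hl 10
  have h11 : (l 0).x3 - (l 1).x1 = 0 := congrFun hl 11
  have h12 : (l 0).X4 + (l 1).X1 = 0 := congrFun hl 12
  have h13 : (l 0).X2 + 2 * (l 1).X3 = 0 := congrFun hl 13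
  constructor
  · ext <;> simp [g1, g2, g3, g4, h0, h1, h2, h3, h4, h5, h6, h7, h8, h9] <;> linarith
  · ext <;> simp [g1, g2, g3, g4, h0, h1, h2, h3, h4, h5, h6, h7, h8, h9] <;> linarith

theorem finrank_LL : 14 ≤ finrank ℚ LL := by
  have h1 := LinearMap.finrank_range_add_finrank_ker cond
  rw [finrank_two] at h1
  have h2 : finrank ℚ (LinearMap.range cond) ≤ 14 := by
    have := Submodule.finrank_le (LinearMap.range cond)
    rwa [finrank_fin_fun] at this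
  have h3 := Submodule.finrank_mono cond_le
  have h4 : finrank ℚ (LL.restrictScalars ℚ) = finrank ℚ LL := rfl
  omega

/-- the elements without a part of degree at most one -/
def low (r : Rg) : Prop :=
  r.a = 0 ∧ r.x1 = 0 ∧ r.x2 = 0 ∧ r.x3 = 0 ∧ r.x4 = 0 ∧ r.y = 0 ∧ r.z = 0

theorem low.zero : low 0 := by simp [low]

theorem low.add {p q : Rg} (hp : low p) (hq : low q) : low (p + q) := by
  obtain ⟨h1, h2, h3, h4, h5, h6, h7⟩ := hp
  obtain ⟨k1, k2, k3, k4, k5, k6, k7⟩ := hq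
  simp [low, *]

theorem low.mul {p q : Rg} (hp : p.a = 0) (hq : q.a = 0) : low (p * q) := by
  simp [low, hp, hq]

/-- the condition for the products with the elements of `LL` -/
def lowL (l : Fin 2 → Rg) : Prop :=
  low (l 0) ∧ low (l 1) ∧ (l 1).X1 = -(l 0).X4 ∧ (l 0).X2 = -2 * (l 1).X3 ∧ (l 1).Z = (l 0).Z

theorem lowL_mul (r : Rg) (hr : r.a = 0) (l : Fin 2 → Rg) (hl : l ∈ LL) : lowL (r • l) := by
  obtain ⟨h0, h1, h2, h3, h4, h5, h6, h7, h8, h9, h10, h11⟩ := LL_facts l hl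
  refine ⟨low.mul hr h0, low.mul hr h1, ?_, ?_, ?_⟩
  · rw [Pi.smul_apply, Pi.smul_apply, smul_eq_mul, smul_eq_mul]
    simp [hr, h0, h1, h2, h3, h4, h5, h6, h7, h8, h9, h10, h11]
  · rw [Pi.smul_apply, Pi.smul_apply, smul_eq_mul, smul_eq_mul]
    simp [hr, h0, h1, h2, h3, h4, h5, h6, h7, h8, h9, h10, h11]
    ring
  · rw [Pi.smul_apply, Pi.smul_apply, smul_eq_mul, smul_eq_mul]
    simp [hr, h0, h1, h2, h3, h5, h6, h7, h9, h10, h11]
    left
    ring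

/-- some coordinates -/
def top11 : (Fin 2 → Rg) →ₗ[ℚ] (Fin 11 → ℚ) where
  toFun l := ![(l 0).X1, (l 0).X3, (l 0).X4, (l 0).Y, (l 0).Z, (l 0).s,
    (l 1).X2, (l 1).X3, (l 1).X4, (l 1).Y, (l 1).s]
  map_add' p q := by
    funext i
    fin_cases i <;> simp
  map_smul' c p := by
    funext i
    fin_cases i <;> simp

theorem finrank_mLL :
    finrank ℚ (IsLocalRing.maximalIdeal Rg • (⊤ : Submodule Rg LL) : Submodule Rg LL) ≤ 11 := by
  have hlow : ∀ z : LL, z ∈ (IsLocalRing.maximalIdeal Rg • (⊤ : Submodule Rg LL)) →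
      lowL z.1 := by
    intro z hz
    refine Submodule.smul_induction_on hz ?_ ?_
    · intro r hr n _
      exact lowL_mul r ((Rg.mem_max r).1 hr) n.1 n.2
    · rintro x y ⟨h1, h2, h3, h4, h5⟩ ⟨k1, k2, k3, k4, k5⟩
      refine ⟨h1.add k1, h2.add k2, ?_, ?_, ?_⟩
      · simp [h3, k3]
        ring
      · simp [h4, k4]
        ring
      · simp [h5, k5]
  let f : (IsLocalRing.maximalIdeal Rg • (⊤ : Submodule Rg LL) : Submodule Rg LL) →ₗ[ℚ]
      (Fin 11 → ℚ) := top11 ∘ₗ (LL.subtype.restrictScalars ℚ) ∘ₗ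
        ((IsLocalRing.maximalIdeal Rg • (⊤ : Submodule Rg LL) :
          Submodule Rg LL).subtype.restrictScalars ℚ)
  have hf : Function.Injective f := by
    intro z z' hz
    obtain ⟨⟨h1, h2, h3, h4, h5, h6, h7⟩, ⟨k1, k2, k3, k4, k5, k6, k7⟩, m1, m2, m3⟩ :=
      hlow z.1 z.2
    obtain ⟨⟨h1', h2', h3', h4', h5', h6', h7'⟩, ⟨k1', k2', k3', k4', k5', k6', k7'⟩, m1', m2',
      m3'⟩ := hlow z'.1 z'.2
    have e0 : (z.1.1 0).X1 = (z'.1.1 0).X1 := congrFun hz 0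
    have e1 : (z.1.1 0).X3 = (z'.1.1 0).X3 := congrFun hz 1
    have e2 : (z.1.1 0).X4 = (z'.1.1 0).X4 := congrFun hz 2
    have e3 : (z.1.1 0).Y = (z'.1.1 0).Y := congrFun hz 3
    have e4 : (z.1.1 0).Z = (z'.1.1 0).Z := congrFun hz 4
    have e5 : (z.1.1 0).s = (z'.1.1 0).s := congrFun hz 5
    have e6 : (z.1.1 1).X2 = (z'.1.1 1).X2 := congrFun hz 6
    have e7 : (z.1.1 1).X3 = (z'.1.1 1).X3 := congrFun hz 7
    have e8 : (z.1.1 1).X4 = (z'.1.1 1).X4 := congrFun hz 8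
    have e9 : (z.1.1 1).Y = (z'.1.1 1).Y := congrFun hz 9
    have e10 : (z.1.1 1).s = (z'.1.1 1).s := congrFun hz 10
    apply Subtype.ext
    apply Subtype.ext
    funext i
    fin_cases i
    · change z.1.1 0 = z'.1.1 0
      ext <;> linarith
    · change z.1.1 1 = z'.1.1 1
      ext <;> linarith
  have := LinearMap.finrank_le_finrank_of_injective hf
  rwa [finrank_fin_fun] at this

end Pool.Agent.Q24.AE
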