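import Mathlib

set_option autoImplicit false

/-!
# Free resolutions over local rings: minimal ones are the smallest, and doubling
-/

namespace Pool.Agent.Q24.AE

open Module

/-- `b` is the sequence of the Betti numbers of `M`: the ranks of a minimal free resolution. -/
def IsBetti (A : Type) [CommRing A] [IsLocalRing A] (M : Type) [AddCommGroup M] [Module A M]
    (b : ℕ → ℕ) : Prop :=
  ∃ (ε : (Fin (b 0) → A) →ₗ[A] M) (d : ∀ n, (Fin (b (n + 1)) → A) →ₗ[A] (Fin (b n) → A)),
    Function.Surjective ε ∧ LinearMap.range (d 0) = LinearMap.ker ε ∧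
    (∀ n, LinearMap.range (d (n + 1)) = LinearMap.ker (d n)) ∧
    ∀ n x i, d n x i ∈ IsLocalRing.maximalIdeal A

/-- There are free resolutions of length `N` with the ranks `g`. -/
def PR (A : Type) [CommRing A] :
    ℕ → (ℕ → ℕ) → ∀ (X : Type) [AddCommGroup X] [Module A X], Prop
  | 0, g, X, _, _ => ∃ π : (Fin (g 0) → A) →ₗ[A] X, Function.Surjective π
  | N + 1, g, X, _, _ => ∃ π : (Fin (g 0) → A) →ₗ[A] X, Function.Surjective π ∧
      PR A N (fun n => g (n + 1)) (LinearMap.ker π)

theorem PR.surj {A : Type} [CommRing A] {N : ℕ} {g : ℕ → ℕ} {X : Type} [AddCommGroup X]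
    [Module A X] (h : PR A N g X) : ∃ π : (Fin (g 0) → A) →ₗ[A] X, Function.Surjective π := by
  cases N with
  | zero => exact h
  | succ N => exact ⟨h.choose, h.choose_spec.1⟩

theorem PR.congr {A : Type} [CommRing A] {N : ℕ} {g : ℕ → ℕ} {X Y : Type} [AddCommGroup X]
    [Module A X] [AddCommGroup Y] [Module A Y] (e : X ≃ₗ[A] Y) (h : PR A N g X) :
    PR A N g Y := by
  cases N with
  | zero =>
    obtain ⟨π, hπ⟩ := h
    exact ⟨e.toLinearMap ∘ₗ π, e.surjective.comp hπ⟩
  | succ N =>
    obtain ⟨π, hπ, h⟩ := h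
    refine ⟨e.toLinearMap ∘ₗ π, e.surjective.comp hπ, ?_⟩
    rw [LinearEquiv.ker_comp]
    exact h

theorem PR.ranks {A : Type} [CommRing A] {N : ℕ} {g g' : ℕ → ℕ} {X : Type} [AddCommGroup X]
    [Module A X] (h : PR A N g X) (hg : g = g') : PR A N g' X := hg ▸ h

/-- the splitting of the coordinates -/
noncomputable def splitE (A : Type) [CommRing A] (m a : ℕ) :
    (Fin (m + a) → A) ≃ₗ[A] (Fin m → A) × (Fin a → A) :=
  (LinearEquiv.funCongrLeft A A finSumFinEquiv).trans (LinearEquiv.sumArrowLequivProdArrow _ _ A A)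

theorem PR.prodFree {A : Type} [CommRing A] {N : ℕ} {g : ℕ → ℕ} {X : Type} [AddCommGroup X]
    [Module A X] (a : ℕ) (h : PR A N g X) :
    PR A N (fun n => if n = 0 then g 0 + a else g n) (X × (Fin a → A)) := by
  cases N with
  | zero =>
    obtain ⟨π, hπ⟩ := h
    refine ⟨(π.prodMap LinearMap.id) ∘ₗ (splitE A (g 0) a).toLinearMap, ?_⟩
    exact (Function.Surjective.prodMap hπ Function.surjective_id).comp (splitE A (g 0) a).surjective
  | succ N =>
    obtain ⟨π, hπ, h⟩ := h
    refine ⟨(π.prodMap LinearMap.id) ∘ₗ (splitE A (g 0) a).toLinearMap,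
      (Function.Surjective.prodMap hπ Function.surjective_id).comp
        (splitE A (g 0) a).surjective, ?_⟩
    have hg : (fun n => if n + 1 = 0 then g 0 + a else g (n + 1)) = fun n => g (n + 1) := by
      funext n
      simp
    rw [hg]
    refine PR.congr ?_ h
    refine
      { toFun := fun k => ⟨(splitE A (g 0) a).symm (k.1, 0), ?_⟩
        map_add' := ?_
        map_smul' := ?_
        invFun := fun z => ⟨(splitE A (g 0) a z.1).1, ?_⟩
        left_inv := ?_
        right_inv := ?_ }
    · rw [LinearMap.mem_ker]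
      simp
    · intro x y
      apply Subtype.ext
      simp only [Submodule.coe_add]
      rw [← map_add]
      simp
    · intro c x
      apply Subtype.ext
      simp only [Submodule.coe_smul, RingHom.id_apply]
      rw [← map_smul]
      simp
    · have hz := z.2
      rw [LinearMap.mem_ker] at hz ⊢
      exact congrArg Prod.fst hz
    · intro k
      apply Subtype.ext
      simp
    · intro z
      apply Subtype.ext
      have hz := z.2
      rw [LinearMap.mem_ker] at hz
      have h3 : (splitE A (g 0) a z.1).2 = 0 := congrArg Prod.snd hz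
      simp only
      rw [LinearEquiv.symm_apply_eq]
      exact Prod.ext rfl h3.symm

/-- the insertion of a zero -/
def insZ (A : Type) [CommRing A] {m : ℕ} (i : Fin (m + 1)) : (Fin m → A) →ₗ[A] (Fin (m + 1) → A) :=
  { toFun := fun w => Fin.insertNth (α := fun _ => A) i 0 w
    map_add' := by
      intro w w'
      funext j
      refine Fin.succAboveCases i ?_ ?_ j
      · simp
      · intro j
        simp
    map_smul' := by
      intro c w
      funext j
      refine Fin.succAboveCases i ?_ ?_ j
      · simp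
      · intro j
        simp }

theorem insZ_same {A : Type} [CommRing A] {m : ℕ} (i : Fin (m + 1)) (w : Fin m → A) :
    insZ A i w i = 0 := Fin.insertNth_apply_same (α := fun _ => A) i 0 w

theorem insZ_succ {A : Type} [CommRing A] {m : ℕ} (i : Fin (m + 1)) (w : Fin m → A) (j : Fin m) :
    insZ A i w (i.succAbove j) = w j := Fin.insertNth_apply_succAbove (α := fun _ => A) i 0 w j

section loc

variable {A : Type} [CommRing A] [IsLocalRing A]

/-- minimal covers -/
def MinCover {X : Type} [AddCommGroup X] [Module A X] {β : ℕ} (π : (Fin β → A) →ₗ[A] X) : Prop :=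
  Function.Surjective π ∧ ∀ x, π x = 0 → ∀ i, x i ∈ IsLocalRing.maximalIdeal A

theorem exists_minCover (X : Type) [AddCommGroup X] [Module A X] [Module.Finite A X] :
    ∃ (β : ℕ) (π : (Fin β → A) →ₗ[A] X), MinCover π := by
  classical
  have hex : ∃ n : ℕ, ∃ f : (Fin n → A) →ₗ[A] X, Function.Surjective f :=
    Module.Finite.exists_fin' A X
  obtain ⟨π, hπ⟩ := Nat.find_spec hex
  refine ⟨Nat.find hex, π, hπ, ?_⟩
  intro x hx i
  by_contra hi
  rw [IsLocalRing.mem_maximalIdeal, mem_nonunits_iff, not_not] at hi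
  obtain ⟨u, hu⟩ := hi
  generalize hn : Nat.find hex = n at *
  cases n with
  | zero => exact i.elim0
  | succ m =>
    have hlt : m < Nat.find hex := by omega
    apply Nat.find_min hex hlt
    refine ⟨π ∘ₗ insZ A i, ?_⟩
    intro y
    obtain ⟨z, hz⟩ := hπ y
    refine ⟨fun j => (z - (z i * ((u⁻¹ : Aˣ) : A)) • x) (i.succAbove j), ?_⟩
    rw [LinearMap.comp_apply]
    have e : insZ A i (fun j => (z - (z i * ((u⁻¹ : Aˣ) : A)) • x) (i.succAbove j)) =
        z - (z i * ((u⁻¹ : Aˣ) : A)) • x := by
      funext j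
      refine Fin.succAboveCases i ?_ ?_ j
      · have h1 : (z - (z i * ((u⁻¹ : Aˣ) : A)) • x) i = 0 := by
          simp only [Pi.sub_apply, Pi.smul_apply, smul_eq_mul]
          rw [← hu, mul_assoc, Units.inv_mul, mul_one, sub_self]
        rw [h1]
        exact insZ_same i _
      · intro j
        exact insZ_succ i _ j
    rw [e, map_sub, map_smul, hx, smul_zero, sub_zero, hz]

theorem mem_smul_top {β : ℕ} {P : Type} [AddCommGroup P] [Module A P]
    (ι : (Fin β → A) →ₗ[A] P) (x : Fin β → A)
    (hx : ∀ i, x i ∈ IsLocalRing.maximalIdeal A) :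
    ι x ∈ IsLocalRing.maximalIdeal A • (⊤ : Submodule A P) := by
  classical
  have e : ι x = ∑ i, x i • ι (Pi.single i 1) := by
    rw [← Finset.sum_congr rfl fun i _ => map_smul ι (x i) (Pi.single i 1), ← map_sum]
    congr 1
    funext j
    simp [Finset.sum_apply, Pi.single_apply]
  rw [e]
  exact Submodule.sum_mem _ fun i _ => Submodule.smul_mem_smul (hx i) Submodule.mem_top

/-- **The comparison of a minimal cover with any finite free cover.** -/
theorem step {Ω K : Type} [AddCommGroup Ω] [Module A Ω] [AddCommGroup K] [Module A K]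
    {β a n : ℕ} (π : (Fin β → A) →ₗ[A] Ω) (hπ : MinCover π) (e : K ≃ₗ[A] Ω × (Fin a → A))
    (ρ : (Fin n → A) →ₗ[A] K) (hρ : Function.Surjective ρ) :
    ∃ a', n = β + a + a' ∧
      Nonempty (LinearMap.ker ρ ≃ₗ[A] LinearMap.ker π × (Fin a' → A)) := by
  classical
  let θ : (Fin β → A) × (Fin a → A) →ₗ[A] Ω × (Fin a → A) := π.prodMap LinearMap.id
  have hθ : Function.Surjective θ := Function.Surjective.prodMap hπ.1 Function.surjective_id
  obtain ⟨φ, hφ⟩ := Module.projective_lifting_property θ (e.toLinearMap ∘ₗ ρ) hθ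
  have hφ' : ∀ x, θ (φ x) = e (ρ x) := fun x => LinearMap.congr_fun hφ x
  have hker : ∀ y, θ y = 0 → y.2 = 0 ∧ π y.1 = 0 := by
    intro y hy
    exact ⟨congrArg Prod.snd hy, congrArg Prod.fst hy⟩
  have hsurj : Function.Surjective φ := by
    rw [← LinearMap.range_eq_top, ← top_le_iff]
    apply Submodule.le_of_le_smul_of_le_jacobson_bot (I := IsLocalRing.maximalIdeal A)
    · exact Module.Finite.fg_top
    · rw [IsLocalRing.jacobson_eq_maximalIdeal _ bot_ne_top]
    · intro y _
      obtain ⟨x, hx⟩ := hρ (e.symm (θ y))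
      have h0 : θ (y - φ x) = 0 := by
        rw [map_sub, hφ', hx, LinearEquiv.apply_symm_apply, sub_self]
      obtain ⟨h1, h2⟩ := hker _ h0
      have h3 := mem_smul_top (LinearMap.inl A (Fin β → A) (Fin a → A)) (y - φ x).1 (hπ.2 _ h2)
      have h4 : LinearMap.inl A (Fin β → A) (Fin a → A) (y - φ x).1 = y - φ x := by
        rw [LinearMap.inl_apply]
        exact Prod.ext rfl h1.symm
      rw [h4] at h3
      have h5 : y = φ x + (y - φ x) := by abel
      rw [h5]
      exact Submodule.add_mem_sup ⟨x, rfl⟩ h3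
  obtain ⟨s, hs⟩ := Module.projective_lifting_property φ LinearMap.id hsurj
  have hs' : ∀ y, φ (s y) = y := fun y => LinearMap.congr_fun hs y
  -- the kernel of `φ` is free
  let r : (Fin n → A) →ₗ[A] LinearMap.ker φ :=
    LinearMap.codRestrict _ (LinearMap.id - s ∘ₗ φ) (by
      intro x
      rw [LinearMap.mem_ker]
      simp [hs'])
  have hr : ∀ y : LinearMap.ker φ, r y.1 = y := by
    intro y
    apply Subtype.ext
    have := y.2
    rw [LinearMap.mem_ker] at this
    simp [r, this]
  have hproj : Module.Projective A (LinearMap.ker φ) :=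
    Module.Projective.of_split (LinearMap.ker φ).subtype r (LinearMap.ext hr)
  have hfin : Module.Finite A (LinearMap.ker φ) :=
    Module.Finite.of_surjective r (fun y => ⟨y.1, hr y⟩)
  have hfree : Module.Free A (LinearMap.ker φ) := Module.free_of_flat_of_isLocalRing
  let E : (Fin n → A) ≃ₗ[A] ((Fin β → A) × (Fin a → A)) × LinearMap.ker φ :=
    { toFun := fun x => (φ x, r x)
      map_add' := fun x y => by simp
      map_smul' := fun c x => by simp
      invFun := fun z => s z.1 + z.2.1
      left_inv := fun x => by simp [r]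
      right_inv := fun z => by
        have h1 : φ z.2.1 = 0 := z.2.2
        refine Prod.ext ?_ ?_
        · simp [hs', h1]
        · apply Subtype.ext
          simp [r, hs', h1] }
  refine ⟨finrank A (LinearMap.ker φ), ?_, ?_⟩
  · have := E.finrank_eq
    rw [finrank_prod, finrank_prod, finrank_fin_fun, finrank_fin_fun, finrank_fin_fun] at this
    exact this
  · let b : LinearMap.ker φ ≃ₗ[A] (Fin (finrank A (LinearMap.ker φ)) → A) :=
      (Module.finBasis A (LinearMap.ker φ)).equivFun
    have hmem : ∀ x, ρ x = 0 ↔ θ (φ x) = 0 := by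
      intro x
      rw [hφ', LinearEquiv.map_eq_zero_iff]
    have hφr : ∀ x, φ x = 0 → φ x = 0 := fun _ h => h
    let F : LinearMap.ker ρ ≃ₗ[A] LinearMap.ker π × LinearMap.ker φ :=
      { toFun := fun x => (⟨(φ x.1).1, by
            have hx := x.2
            rw [LinearMap.mem_ker, hmem] at hx
            exact (hker _ hx).2⟩, r x.1)
        map_add' := fun x y => by
          refine Prod.ext ?_ ?_
          · apply Subtype.ext
            simp
          · simp
        map_smul' := fun c x => by
          refine Prod.ext ?_ ?_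
          · apply Subtype.ext
            simp
          · simp
        invFun := fun z => ⟨s (z.1.1, 0) + z.2.1, by
          have h1 : φ z.2.1 = 0 := z.2.2
          have h2 : π z.1.1 = 0 := z.1.2
          rw [LinearMap.mem_ker, hmem, map_add, hs', h1, add_zero]
          exact Prod.ext h2 rfl⟩
        left_inv := fun x => by
          apply Subtype.ext
          have hx := x.2
          rw [LinearMap.mem_ker, hmem] at hx
          have h1 := (hker _ hx).1
          have h2 : (((φ x.1).1, 0) : (Fin β → A) × (Fin a → A)) = φ x.1 := Prod.ext rfl h1.symm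
          simp only
          rw [h2]
          simp [r]
        right_inv := fun z => by
          have h1 : φ z.2.1 = 0 := z.2.2
          refine Prod.ext ?_ ?_
          · apply Subtype.ext
            simp [hs', h1]
          · apply Subtype.ext
            simp [r, hs', h1] }
    exact ⟨F.trans (LinearEquiv.prodCongr (LinearEquiv.refl A _) b)⟩

theorem IsBetti.tail {M : Type} [AddCommGroup M] [Module A M] {b : ℕ → ℕ} (h : IsBetti A M b) :
    ∃ π : (Fin (b 0) → A) →ₗ[A] M, MinCover π ∧
      IsBetti A (LinearMap.ker π) (fun n => b (n + 1)) := by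
  obtain ⟨ε, d, h1, h2, h3, h4⟩ := h
  refine ⟨ε, ⟨h1, ?_⟩, ?_⟩
  · intro x hx i
    have : x ∈ LinearMap.range (d 0) := by
      rw [h2]
      exact hx
    obtain ⟨y, rfl⟩ := this
    exact h4 0 y i
  · refine ⟨LinearMap.codRestrict _ (d 0) ?_, fun n => d (n + 1), ?_, ?_, ?_, ?_⟩
    · intro x
      rw [← h2]
      exact ⟨x, rfl⟩
    · intro y
      have hy : y.1 ∈ LinearMap.range (d 0) := by
        rw [h2]
        exact y.2
      obtain ⟨x, hx⟩ := hy
      exact ⟨x, Subtype.ext hx⟩
    · rw [LinearMap.ker_codRestrict]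
      exact h3 0
    · intro n
      exact h3 (n + 1)
    · intro n x i
      exact h4 (n + 1) x i

/-- **Minimal resolutions have the smallest ranks.** -/
theorem betti_le : ∀ (N : ℕ) (g b : ℕ → ℕ) (a : ℕ) (Ω K : Type) [AddCommGroup Ω] [Module A Ω]
    [AddCommGroup K] [Module A K], IsBetti A Ω b → (K ≃ₗ[A] Ω × (Fin a → A)) → PR A N g K →
    ∀ n ≤ N, b n ≤ g n := by
  intro N
  induction N with
  | zero =>
    intro g b a Ω K _ _ _ _ hb e h n hn
    obtain rfl : n = 0 := by omega
    obtain ⟨ρ, hρ⟩ := h
    obtain ⟨π, hπ, _⟩ := hb.tail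
    obtain ⟨a', h1, _⟩ := step π hπ e ρ hρ
    omega
  | succ N ih =>
    intro g b a Ω K _ _ _ _ hb e h n hn
    obtain ⟨ρ, hρ, h⟩ := h
    obtain ⟨π, hπ, hb'⟩ := hb.tail
    obtain ⟨a', h1, ⟨e'⟩⟩ := step π hπ e ρ hρ
    cases n with
    | zero => omega
    | succ n => exact ih _ _ a' _ _ hb' e' h n (by omega)

theorem IsBetti.pr : ∀ (N : ℕ) (b : ℕ → ℕ) (M : Type) [AddCommGroup M] [Module A M],
    IsBetti A M b → PR A N b M := by
  intro N
  induction N with
  | zero =>
    intro b M _ _ h
    obtain ⟨π, hπ, _⟩ := h.tail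
    exact ⟨π, hπ.1⟩
  | succ N ih =>
    intro b M _ _ h
    obtain ⟨π, hπ, h'⟩ := h.tail
    exact ⟨π, hπ.1, ih _ _ h'⟩

section exist

variable [IsNoetherianRing A]

/-- the next syzygy -/
noncomputable def nxt (s : Σ k : ℕ, Submodule A (Fin k → A)) : Σ k : ℕ, Submodule A (Fin k → A) :=
  ⟨(exists_minCover (A := A) s.2).choose,
    LinearMap.ker (exists_minCover (A := A) s.2).choose_spec.choose⟩

/-- the cover -/
noncomputable def cov (s : Σ k : ℕ, Submodule A (Fin k → A)) : (Fin (nxt s).1 → A) →ₗ[A] s.2 :=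
  (exists_minCover (A := A) s.2).choose_spec.choose

theorem cov_min (s : Σ k : ℕ, Submodule A (Fin k → A)) : MinCover (cov s) :=
  (exists_minCover (A := A) s.2).choose_spec.choose_spec

theorem nxt_ker (s : Σ k : ℕ, Submodule A (Fin k → A)) : (nxt s).2 = LinearMap.ker (cov s) := rfl

theorem range_cov (s : Σ k : ℕ, Submodule A (Fin k → A)) :
    LinearMap.range (s.2.subtype ∘ₗ cov s) = s.2 := by
  rw [LinearMap.range_comp, LinearMap.range_eq_top.2 (cov_min s).1, Submodule.map_top,
    Submodule.range_subtype]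

theorem ker_cov (s : Σ k : ℕ, Submodule A (Fin k → A)) :
    LinearMap.ker (s.2.subtype ∘ₗ cov s) = (nxt s).2 := by
  rw [LinearMap.ker_comp, Submodule.ker_subtype, Submodule.comap_bot]
  rfl

/-- the syzygies -/
noncomputable def syz (s : Σ k : ℕ, Submodule A (Fin k → A)) :
    ℕ → Σ k : ℕ, Submodule A (Fin k → A)
  | 0 => s
  | n + 1 => nxt (syz s n)

theorem exists_betti (M : Type) [AddCommGroup M] [Module A M] [Module.Finite A M] :
    ∃ b, IsBetti A M b := by
  obtain ⟨β, ε, h1, h2⟩ := exists_minCover (A := A) M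
  let s : Σ k : ℕ, Submodule A (Fin k → A) := ⟨β, LinearMap.ker ε⟩
  refine ⟨fun n => (syz s n).1, ε, fun n => (syz s n).2.subtype ∘ₗ cov (syz s n), h1, ?_, ?_, ?_⟩
  · exact range_cov (syz s 0)
  · intro n
    exact (range_cov (syz s (n + 1))).trans (ker_cov (syz s n)).symm
  · intro n x i
    rw [LinearMap.comp_apply, Submodule.subtype_apply]
    have h3 := (cov (syz s n) x).2
    cases n with
    | zero => exact h2 _ h3 i
    | succ n => exact (cov_min (syz s n)).2 _ h3 i

end exist

end loc

end Pool.Agent.Q24.AE
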