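import Pool.Agent.Q24.AE.Dbl

set_option autoImplicit false

/-!
# A Gorenstein algebra of dimension fourteen with Hilbert function `1, 6, 6, 1`
-/

namespace Pool.Agent.Q24.AE

open Module

/-- The elements: `a` is the part of degree zero, `x1, …, z` that of degree one, `X1, …, Z` that of
degree two (dual to that of degree one) and `s` that of degree three. -/
@[ext] structure Rg where
  a : ℚ
  x1 : ℚ
  x2 : ℚ
  x3 : ℚ
  x4 : ℚ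
  y : ℚ
  z : ℚ
  X1 : ℚ
  X2 : ℚ
  X3 : ℚ
  X4 : ℚ
  Y : ℚ
  Z : ℚ
  s : ℚ

namespace Rg

instance : Zero Rg := ⟨⟨0, 0, 0, 0, 0, 0, 0, 0, 0, 0, 0, 0, 0, 0⟩⟩
instance : One Rg := ⟨⟨1, 0, 0, 0, 0, 0, 0, 0, 0, 0, 0, 0, 0, 0⟩⟩
instance : Add Rg := ⟨fun p q => ⟨p.a + q.a, p.x1 + q.x1, p.x2 + q.x2, p.x3 + q.x3, p.x4 + q.x4, p.y + q.y, p.z + q.z, p.X1 + q.X1, p.X2 + q.X2, p.X3 + q.X3, p.X4 + q.X4, p.Y + q.Y, p.Z + q.Z, p.s + q.s⟩⟩
instance : Neg Rg := ⟨fun p => ⟨-p.a, -p.x1, -p.x2, -p.x3, -p.x4, -p.y, -p.z, -p.X1, -p.X2, -p.X3, -p.X4, -p.Y, -p.Z, -p.s⟩⟩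
instance : Sub Rg := ⟨fun p q => ⟨p.a - q.a, p.x1 - q.x1, p.x2 - q.x2, p.x3 - q.x3, p.x4 - q.x4, p.y - q.y, p.z - q.z, p.X1 - q.X1, p.X2 - q.X2, p.X3 - q.X3, p.X4 - q.X4, p.Y - q.Y, p.Z - q.Z, p.s - q.s⟩⟩
instance : SMul ℚ Rg := ⟨fun c p => ⟨c * p.a, c * p.x1, c * p.x2, c * p.x3, c * p.x4, c * p.y, c * p.z, c * p.X1, c * p.X2, c * p.X3, c * p.X4, c * p.Y, c * p.Z, c * p.s⟩⟩
instance : Mul Rg := ⟨fun p q =>
  ⟨p.a * q.a,
    p.a * q.x1 + p.x1 * q.a,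
    p.a * q.x2 + p.x2 * q.a,
    p.a * q.x3 + p.x3 * q.a,
    p.a * q.x4 + p.x4 * q.a,
    p.a * q.y + p.y * q.a,
    p.a * q.z + p.z * q.a,
    p.a * q.X1 + p.X1 * q.a + (p.x3 * q.x3 + p.x4 * q.x4 + p.x2 * q.y + p.y * q.x2 + p.z * q.z),
    p.a * q.X2 + p.X2 * q.a + (-2 * p.x3 * q.x3 - p.x4 * q.x4 + p.x1 * q.y + p.y * q.x1 + p.z * q.z),
    p.a * q.X3 + p.X3 * q.a + (p.x1 * q.x3 + p.x3 * q.x1 - 2 * (p.x2 * q.x3 + p.x3 * q.x2) + p.z * q.z),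
    p.a * q.X4 + p.X4 * q.a + (p.x1 * q.x4 + p.x4 * q.x1 - (p.x2 * q.x4 + p.x4 * q.x2) + p.z * q.z),
    p.a * q.Y + p.Y * q.a + (p.x1 * q.x2 + p.x2 * q.x1),
    p.a * q.Z + p.Z * q.a + ((p.x1 + p.x2 + p.x3 + p.x4) * q.z + p.z * (q.x1 + q.x2 + q.x3 + q.x4)),
    p.a * q.s + p.s * q.a + (p.x1 * q.X1 + p.X1 * q.x1 + p.x2 * q.X2 + p.X2 * q.x2 + p.x3 * q.X3 + p.X3 * q.x3 + p.x4 * q.X4 + p.X4 * q.x4 + p.y * q.Y + p.Y * q.y + p.z * q.Z + p.Z * q.z)⟩⟩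

@[simp] theorem zero_a : (0 : Rg).a = 0 := rfl
@[simp] theorem zero_x1 : (0 : Rg).x1 = 0 := rfl
@[simp] theorem zero_x2 : (0 : Rg).x2 = 0 := rfl
@[simp] theorem zero_x3 : (0 : Rg).x3 = 0 := rfl
@[simp] theorem zero_x4 : (0 : Rg).x4 = 0 := rfl
@[simp] theorem zero_y : (0 : Rg).y = 0 := rfl
@[simp] theorem zero_z : (0 : Rg).z = 0 := rfl
@[simp] theorem zero_X1 : (0 : Rg).X1 = 0 := rfl
@[simp] theorem zero_X2 : (0 : Rg).X2 = 0 := rfl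
@[simp] theorem zero_X3 : (0 : Rg).X3 = 0 := rfl
@[simp] theorem zero_X4 : (0 : Rg).X4 = 0 := rfl
@[simp] theorem zero_Y : (0 : Rg).Y = 0 := rfl
@[simp] theorem zero_Z : (0 : Rg).Z = 0 := rfl
@[simp] theorem zero_s : (0 : Rg).s = 0 := rfl
@[simp] theorem one_a : (1 : Rg).a = 1 := rfl
@[simp] theorem one_x1 : (1 : Rg).x1 = 0 := rfl
@[simp] theorem one_x2 : (1 : Rg).x2 = 0 := rfl
@[simp] theorem one_x3 : (1 : Rg).x3 = 0 := rfl
@[simp] theorem one_x4 : (1 : Rg).x4 = 0 := rfl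
@[simp] theorem one_y : (1 : Rg).y = 0 := rfl
@[simp] theorem one_z : (1 : Rg).z = 0 := rfl
@[simp] theorem one_X1 : (1 : Rg).X1 = 0 := rfl
@[simp] theorem one_X2 : (1 : Rg).X2 = 0 := rfl
@[simp] theorem one_X3 : (1 : Rg).X3 = 0 := rfl
@[simp] theorem one_X4 : (1 : Rg).X4 = 0 := rfl
@[simp] theorem one_Y : (1 : Rg).Y = 0 := rfl
@[simp] theorem one_Z : (1 : Rg).Z = 0 := rfl
@[simp] theorem one_s : (1 : Rg).s = 0 := rfl
@[simp] theorem add_a (p q : Rg) : (p + q).a = p.a + q.a := rfl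
@[simp] theorem add_x1 (p q : Rg) : (p + q).x1 = p.x1 + q.x1 := rfl
@[simp] theorem add_x2 (p q : Rg) : (p + q).x2 = p.x2 + q.x2 := rfl
@[simp] theorem add_x3 (p q : Rg) : (p + q).x3 = p.x3 + q.x3 := rfl
@[simp] theorem add_x4 (p q : Rg) : (p + q).x4 = p.x4 + q.x4 := rfl
@[simp] theorem add_y (p q : Rg) : (p + q).y = p.y + q.y := rfl
@[simp] theorem add_z (p q : Rg) : (p + q).z = p.z + q.z := rfl
@[simp] theorem add_X1 (p q : Rg) : (p + q).X1 = p.X1 + q.X1 := rfl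
@[simp] theorem add_X2 (p q : Rg) : (p + q).X2 = p.X2 + q.X2 := rfl
@[simp] theorem add_X3 (p q : Rg) : (p + q).X3 = p.X3 + q.X3 := rfl
@[simp] theorem add_X4 (p q : Rg) : (p + q).X4 = p.X4 + q.X4 := rfl
@[simp] theorem add_Y (p q : Rg) : (p + q).Y = p.Y + q.Y := rfl
@[simp] theorem add_Z (p q : Rg) : (p + q).Z = p.Z + q.Z := rfl
@[simp] theorem add_s (p q : Rg) : (p + q).s = p.s + q.s := rfl
@[simp] theorem neg_a (p : Rg) : (-p).a = -p.a := rfl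
@[simp] theorem neg_x1 (p : Rg) : (-p).x1 = -p.x1 := rfl
@[simp] theorem neg_x2 (p : Rg) : (-p).x2 = -p.x2 := rfl
@[simp] theorem neg_x3 (p : Rg) : (-p).x3 = -p.x3 := rfl
@[simp] theorem neg_x4 (p : Rg) : (-p).x4 = -p.x4 := rfl
@[simp] theorem neg_y (p : Rg) : (-p).y = -p.y := rfl
@[simp] theorem neg_z (p : Rg) : (-p).z = -p.z := rfl
@[simp] theorem neg_X1 (p : Rg) : (-p).X1 = -p.X1 := rfl
@[simp] theorem neg_X2 (p : Rg) : (-p).X2 = -p.X2 := rfl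
@[simp] theorem neg_X3 (p : Rg) : (-p).X3 = -p.X3 := rfl
@[simp] theorem neg_X4 (p : Rg) : (-p).X4 = -p.X4 := rfl
@[simp] theorem neg_Y (p : Rg) : (-p).Y = -p.Y := rfl
@[simp] theorem neg_Z (p : Rg) : (-p).Z = -p.Z := rfl
@[simp] theorem neg_s (p : Rg) : (-p).s = -p.s := rfl
@[simp] theorem sub_a (p q : Rg) : (p - q).a = p.a - q.a := rfl
@[simp] theorem sub_x1 (p q : Rg) : (p - q).x1 = p.x1 - q.x1 := rfl
@[simp] theorem sub_x2 (p q : Rg) : (p - q).x2 = p.x2 - q.x2 := rfl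
@[simp] theorem sub_x3 (p q : Rg) : (p - q).x3 = p.x3 - q.x3 := rfl
@[simp] theorem sub_x4 (p q : Rg) : (p - q).x4 = p.x4 - q.x4 := rfl
@[simp] theorem sub_y (p q : Rg) : (p - q).y = p.y - q.y := rfl
@[simp] theorem sub_z (p q : Rg) : (p - q).z = p.z - q.z := rfl
@[simp] theorem sub_X1 (p q : Rg) : (p - q).X1 = p.X1 - q.X1 := rfl
@[simp] theorem sub_X2 (p q : Rg) : (p - q).X2 = p.X2 - q.X2 := rfl
@[simp] theorem sub_X3 (p q : Rg) : (p - q).X3 = p.X3 - q.X3 := rfl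
@[simp] theorem sub_X4 (p q : Rg) : (p - q).X4 = p.X4 - q.X4 := rfl
@[simp] theorem sub_Y (p q : Rg) : (p - q).Y = p.Y - q.Y := rfl
@[simp] theorem sub_Z (p q : Rg) : (p - q).Z = p.Z - q.Z := rfl
@[simp] theorem sub_s (p q : Rg) : (p - q).s = p.s - q.s := rfl
@[simp] theorem smul_a (c : ℚ) (p : Rg) : (c • p).a = c * p.a := rfl
@[simp] theorem smul_x1 (c : ℚ) (p : Rg) : (c • p).x1 = c * p.x1 := rfl
@[simp] theorem smul_x2 (c : ℚ) (p : Rg) : (c • p).x2 = c * p.x2 := rfl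
@[simp] theorem smul_x3 (c : ℚ) (p : Rg) : (c • p).x3 = c * p.x3 := rfl
@[simp] theorem smul_x4 (c : ℚ) (p : Rg) : (c • p).x4 = c * p.x4 := rfl
@[simp] theorem smul_y (c : ℚ) (p : Rg) : (c • p).y = c * p.y := rfl
@[simp] theorem smul_z (c : ℚ) (p : Rg) : (c • p).z = c * p.z := rfl
@[simp] theorem smul_X1 (c : ℚ) (p : Rg) : (c • p).X1 = c * p.X1 := rfl
@[simp] theorem smul_X2 (c : ℚ) (p : Rg) : (c • p).X2 = c * p.X2 := rfl
@[simp] theorem smul_X3 (c : ℚ) (p : Rg) : (c • p).X3 = c * p.X3 := rfl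
@[simp] theorem smul_X4 (c : ℚ) (p : Rg) : (c • p).X4 = c * p.X4 := rfl
@[simp] theorem smul_Y (c : ℚ) (p : Rg) : (c • p).Y = c * p.Y := rfl
@[simp] theorem smul_Z (c : ℚ) (p : Rg) : (c • p).Z = c * p.Z := rfl
@[simp] theorem smul_s (c : ℚ) (p : Rg) : (c • p).s = c * p.s := rfl
@[simp] theorem mul_a (p q : Rg) : (p * q).a =
    p.a * q.a := rfl
@[simp] theorem mul_x1 (p q : Rg) : (p * q).x1 =
    p.a * q.x1 + p.x1 * q.a := rfl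
@[simp] theorem mul_x2 (p q : Rg) : (p * q).x2 =
    p.a * q.x2 + p.x2 * q.a := rfl
@[simp] theorem mul_x3 (p q : Rg) : (p * q).x3 =
    p.a * q.x3 + p.x3 * q.a := rfl
@[simp] theorem mul_x4 (p q : Rg) : (p * q).x4 =
    p.a * q.x4 + p.x4 * q.a := rfl
@[simp] theorem mul_y (p q : Rg) : (p * q).y =
    p.a * q.y + p.y * q.a := rfl
@[simp] theorem mul_z (p q : Rg) : (p * q).z =
    p.a * q.z + p.z * q.a := rfl
@[simp] theorem mul_X1 (p q : Rg) : (p * q).X1 =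
    p.a * q.X1 + p.X1 * q.a + (p.x3 * q.x3 + p.x4 * q.x4 + p.x2 * q.y + p.y * q.x2 + p.z * q.z) := rfl
@[simp] theorem mul_X2 (p q : Rg) : (p * q).X2 =
    p.a * q.X2 + p.X2 * q.a + (-2 * p.x3 * q.x3 - p.x4 * q.x4 + p.x1 * q.y + p.y * q.x1 + p.z * q.z) := rfl
@[simp] theorem mul_X3 (p q : Rg) : (p * q).X3 =
    p.a * q.X3 + p.X3 * q.a + (p.x1 * q.x3 + p.x3 * q.x1 - 2 * (p.x2 * q.x3 + p.x3 * q.x2) + p.z * q.z) := rfl
@[simp] theorem mul_X4 (p q : Rg) : (p * q).X4 =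
    p.a * q.X4 + p.X4 * q.a + (p.x1 * q.x4 + p.x4 * q.x1 - (p.x2 * q.x4 + p.x4 * q.x2) + p.z * q.z) := rfl
@[simp] theorem mul_Y (p q : Rg) : (p * q).Y =
    p.a * q.Y + p.Y * q.a + (p.x1 * q.x2 + p.x2 * q.x1) := rfl
@[simp] theorem mul_Z (p q : Rg) : (p * q).Z =
    p.a * q.Z + p.Z * q.a + ((p.x1 + p.x2 + p.x3 + p.x4) * q.z + p.z * (q.x1 + q.x2 + q.x3 + q.x4)) := rfl
@[simp] theorem mul_s (p q : Rg) : (p * q).s =
    p.a * q.s + p.s * q.a + (p.x1 * q.X1 + p.X1 * q.x1 + p.x2 * q.X2 + p.X2 * q.x2 + p.x3 * q.X3 + p.X3 * q.x3 + p.x4 * q.X4 + p.X4 * q.x4 + p.y * q.Y + p.Y * q.y + p.z * q.Z + p.Z * q.z) := rfl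

instance : CommRing Rg where
  add_assoc p q r := by ext <;> simp <;> ring
  zero_add p := by ext <;> simp
  add_zero p := by ext <;> simp
  add_comm p q := by ext <;> simp <;> ring
  neg_add_cancel p := by ext <;> simp
  sub_eq_add_neg p q := by ext <;> simp <;> ring
  mul_assoc p q r := by ext <;> simp <;> ring
  mul_comm p q := by ext <;> simp <;> ring
  one_mul p := by ext <;> simp
  mul_one p := by ext <;> simp
  zero_mul p := by ext <;> simp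
  mul_zero p := by ext <;> simp
  left_distrib p q r := by ext <;> simp <;> ring
  right_distrib p q r := by ext <;> simp <;> ring
  nsmul := nsmulRec
  zsmul := zsmulRec

instance : Module ℚ Rg where
  one_smul p := by ext <;> simp
  mul_smul c d p := by ext <;> simp <;> ring
  smul_zero c := by ext <;> simp
  smul_add c p q := by ext <;> simp <;> ring
  add_smul c d p := by ext <;> simp <;> ring
  zero_smul p := by ext <;> simp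

instance : Algebra ℚ Rg := Algebra.ofModule
  (by intro c p q; ext <;> simp <;> ring) (by intro c p q; ext <;> simp <;> ring)

/-- the coordinates -/
def coords : Rg ≃ₗ[ℚ] (Fin 14 → ℚ) where
  toFun p := ![p.a, p.x1, p.x2, p.x3, p.x4, p.y, p.z, p.X1, p.X2, p.X3, p.X4, p.Y, p.Z, p.s]
  map_add' p q := by
    funext i
    fin_cases i <;> rfl
  map_smul' c p := by
    funext i
    fin_cases i <;> rfl
  invFun v := ⟨v 0, v 1, v 2, v 3, v 4, v 5, v 6, v 7, v 8, v 9, v 10, v 11, v 12, v 13⟩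
  left_inv p := rfl
  right_inv v := by
    funext i
    fin_cases i <;> rfl

instance : Module.Finite ℚ Rg := Module.Finite.equiv coords.symm

theorem finrank_eq : finrank ℚ Rg = 14 := by
  rw [coords.finrank_eq, finrank_fin_fun]

/-- the part of degree zero -/
def aug : Rg →+* ℚ where
  toFun := a
  map_one' := rfl
  map_mul' _ _ := rfl
  map_zero' := rfl
  map_add' _ _ := rfl

theorem pow_four (p : Rg) (h : p.a = 0) : p ^ 4 = 0 := by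
  have e : p ^ 4 = (p * p) * (p * p) := by ring
  rw [e]
  ext <;> simp [h]

theorem isUnit_of (p : Rg) (h : p.a ≠ 0) : IsUnit p := by
  have h1 : (p.a⁻¹ • p - 1 : Rg).a = 0 := by simp [h]
  have h2 : IsNilpotent (p.a⁻¹ • p - 1 : Rg) := ⟨4, pow_four _ h1⟩
  have h3 := h2.isUnit_one_add
  have h4 : (1 + (p.a⁻¹ • p - 1) : Rg) = p.a⁻¹ • p := by ring
  rw [h4] at h3
  obtain ⟨u, hu⟩ := h3
  refine ⟨⟨p, p.a⁻¹ • ((u⁻¹ : Rgˣ) : Rg), ?_, ?_⟩, rfl⟩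
  · rw [mul_smul_comm, ← smul_mul_assoc, ← hu, Units.mul_inv]
  · rw [mul_comm, mul_smul_comm, ← smul_mul_assoc, ← hu, Units.mul_inv]

instance : IsLocalHom aug := ⟨fun p hp => isUnit_of p (by
  intro h
  have : aug p = 0 := h
  rw [this] at hp
  exact not_isUnit_zero hp)⟩

instance : IsLocalRing Rg := RingHom.domain_isLocalRing aug

theorem mem_max (p : Rg) : p ∈ IsLocalRing.maximalIdeal Rg ↔ p.a = 0 := by
  rw [IsLocalRing.mem_maximalIdeal, mem_nonunits_iff]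
  constructor
  · intro h
    by_contra h2
    exact h (isUnit_of p h2)
  · intro h h2
    have h3 := h2.map aug
    have h4 : aug p = 0 := h
    rw [h4] at h3
    exact not_isUnit_zero h3

/-- `s` is nondegenerate -/
theorem nondeg (p : Rg) (h : ∀ q : Rg, (p * q).s = 0) : p = 0 := by
  have h_a_ : p.a = 0 := by simpa using h ⟨0, 0, 0, 0, 0, 0, 0, 0, 0, 0, 0, 0, 0, 1⟩
  have h_x1_ : p.x1 = 0 := by simpa using h ⟨0, 0, 0, 0, 0, 0, 0, 1, 0, 0, 0, 0, 0, 0⟩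
  have h_x2_ : p.x2 = 0 := by simpa using h ⟨0, 0, 0, 0, 0, 0, 0, 0, 1, 0, 0, 0, 0, 0⟩
  have h_x3_ : p.x3 = 0 := by simpa using h ⟨0, 0, 0, 0, 0, 0, 0, 0, 0, 1, 0, 0, 0, 0⟩
  have h_x4_ : p.x4 = 0 := by simpa using h ⟨0, 0, 0, 0, 0, 0, 0, 0, 0, 0, 1, 0, 0, 0⟩
  have h_y_ : p.y = 0 := by simpa using h ⟨0, 0, 0, 0, 0, 0, 0, 0, 0, 0, 0, 1, 0, 0⟩
  have h_z_ : p.z = 0 := by simpa using h ⟨0, 0, 0, 0, 0, 0, 0, 0, 0, 0, 0, 0, 1, 0⟩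
  have h_s_ : p.s = 0 := by simpa using h ⟨1, 0, 0, 0, 0, 0, 0, 0, 0, 0, 0, 0, 0, 0⟩
  have h_X1_ : p.X1 = 0 := by simpa using h ⟨0, 1, 0, 0, 0, 0, 0, 0, 0, 0, 0, 0, 0, 0⟩
  have h_X2_ : p.X2 = 0 := by simpa using h ⟨0, 0, 1, 0, 0, 0, 0, 0, 0, 0, 0, 0, 0, 0⟩
  have h_X3_ : p.X3 = 0 := by simpa using h ⟨0, 0, 0, 1, 0, 0, 0, 0, 0, 0, 0, 0, 0, 0⟩
  have h_X4_ : p.X4 = 0 := by simpa using h ⟨0, 0, 0, 0, 1, 0, 0, 0, 0, 0, 0, 0, 0, 0⟩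
  have h_Y_ : p.Y = 0 := by simpa using h ⟨0, 0, 0, 0, 0, 1, 0, 0, 0, 0, 0, 0, 0, 0⟩
  have h_Z_ : p.Z = 0 := by simpa using h ⟨0, 0, 0, 0, 0, 0, 1, 0, 0, 0, 0, 0, 0, 0⟩
  ext <;> simp [*]

end Rg

end Pool.Agent.Q24.AE
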